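import Pool.Agent.K3h50.PG.Eqv

/-!
The two complexes and the comparison map for the Magnus group of a graph with an action of a group
with finite stabilisers of the vertices.
-/

namespace Pool.Agent.K3h50.PG

open Finsupp Pool.Agent.Y483

/-- A group `G` over `Γ` with a crossed homomorphism to the `1`-chains of the graph, identifying
`G` with the set of pairs `(m, v)` with `∂ m = v o - o`. -/
structure MagV {Γ V E : Type} [Group Γ] [MulAction Γ V] [MulAction Γ E] (Q : Edges V E) (o : V)
    (G : Type) [Group G] where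
  /-- The projection to `Γ`. -/
  γ : G →* Γ
  /-- The crossed homomorphism. -/
  c : G → (E →₀ ℤ)
  mul : ∀ g h, c (g * h) = c g + gE (γ g) (c h)
  del : ∀ g, Q.del (c g) = single (γ g • o) 1 - single o 1
  inj : ∀ g h, γ g = γ h → c g = c h → g = h
  sur : ∀ (m : E →₀ ℤ) (v : Γ), Q.del m = single (v • o) 1 - single o 1 → ∃ g, γ g = v ∧ c g = m
  gen : ∀ v : V, ∃ m, Q.del m = single v 1 - single o 1

section Weights

variable {Γ V : Type} [Group Γ] [MulAction Γ V]

/-- A representative of the orbit of `v`. -/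
noncomputable def rep0 (v : V) : V := Quotient.out (s := MulAction.orbitRel Γ V) ⟦v⟧

theorem rep0_smul (g : Γ) (v : V) : rep0 (Γ := Γ) (g • v) = rep0 (Γ := Γ) v := by
  unfold rep0
  congr 1
  exact Quotient.sound (s := MulAction.orbitRel Γ V) ⟨g, rfl⟩

theorem rep0_mem (v : V) : ∃ g : Γ, g • rep0 (Γ := Γ) v = v := by
  have h : (MulAction.orbitRel Γ V).r (rep0 (Γ := Γ) v) v :=
    Quotient.exact (s := MulAction.orbitRel Γ V) (Quotient.out_eq _)
  have h' := Setoid.symm' (MulAction.orbitRel Γ V) h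
  obtain ⟨g, hg⟩ := h'
  exact ⟨g, hg⟩

/-- The elements which move the representative to `v`. -/
def movS (v : V) : Set Γ := {g | g • rep0 (Γ := Γ) v = v}

theorem movS_smul (g : Γ) (v : V) : movS (Γ := Γ) (g • v) = (fun x => g * x) '' movS (Γ := Γ) v := by
  ext x
  constructor
  · intro hx
    refine ⟨g⁻¹ * x, ?_, mul_inv_cancel_left g x⟩
    have hx' : x • rep0 (Γ := Γ) (g • v) = g • v := hx
    rw [rep0_smul] at hx'
    change (g⁻¹ * x) • rep0 (Γ := Γ) v = v
    rw [mul_smul, hx', inv_smul_smul]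
  · rintro ⟨y, hy, rfl⟩
    have hy' : y • rep0 (Γ := Γ) v = v := hy
    change (g * y) • rep0 (Γ := Γ) (g • v) = g • v
    rw [rep0_smul, mul_smul, hy']

theorem movS_finite (hfin : ∀ v : V, (MulAction.stabilizer Γ v : Set Γ).Finite) (v : V) :
    (movS (Γ := Γ) v).Finite := by
  obtain ⟨g, hg⟩ := rep0_mem (Γ := Γ) v
  refine ((hfin v).image (fun x => x * g)).subset ?_
  intro x hx
  refine ⟨x * g⁻¹, ?_, inv_mul_cancel_right x g⟩
  have hx' : x • rep0 (Γ := Γ) v = v := hx
  rw [SetLike.mem_coe, MulAction.mem_stabilizer_iff, mul_smul]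
  conv_lhs => rw [← hg]
  rw [inv_smul_smul]
  exact hx'

variable (hfin : ∀ v : V, (MulAction.stabilizer Γ v : Set Γ).Finite)

/-- The finite set of the elements which move the representative to `v`. -/
noncomputable def mov (v : V) : Finset Γ := (movS_finite hfin v).toFinset

theorem mem_mov (v : V) (g : Γ) : g ∈ mov hfin v ↔ g • rep0 (Γ := Γ) v = v := by
  unfold mov
  rw [Set.Finite.mem_toFinset]
  rfl

theorem mov_ne (v : V) : (mov hfin v).card ≠ 0 := by
  obtain ⟨g, hg⟩ := rep0_mem (Γ := Γ) v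
  exact Finset.card_ne_zero_of_mem ((mem_mov hfin v g).mpr hg)

open Classical in
theorem mov_smul (g : Γ) (v : V) : mov hfin (g • v) = (mov hfin v).image (fun x => g * x) := by
  apply Finset.coe_injective
  rw [Finset.coe_image]
  unfold mov
  rw [Set.Finite.coe_toFinset, Set.Finite.coe_toFinset, movS_smul]

variable (C : Type) [AddCommGroup C] [Module ℚ C]

/-- The weights of a vertex. -/
noncomputable def wv (v : V) : C →ₗ[ℚ] (Γ →₀ C) :=
  ((mov hfin v).card : ℚ)⁻¹ • ∑ g ∈ mov hfin v, lsingle g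

/-- The weights of a `0`-chain. -/
noncomputable def WtV : (V →₀ ℤ) →ₗ[ℤ] (C →ₗ[ℚ] (Γ →₀ C)) :=
  Finsupp.linearCombination ℤ (wv hfin C)

theorem WtV_single (v : V) : WtV hfin C (single v 1) = wv hfin C v := by
  simp [WtV]

variable {C}

theorem wv_apply (v : V) (y : C) :
    wv hfin C v y = ((mov hfin v).card : ℚ)⁻¹ • ∑ g ∈ mov hfin v, single g y := by
  unfold wv
  rw [LinearMap.smul_apply, LinearMap.sum_apply]
  rfl

theorem augM_WtV (a : V →₀ ℤ) (y : C) : augM Γ C (WtV hfin C a y) = (degZ V a : ℚ) • y := by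
  apply int_ind (fun a => augM Γ C (WtV hfin C a y)) (fun a => (degZ V a : ℚ) • y)
  · intro a b; simp only [map_add, LinearMap.add_apply]
  · intro a b; simp only [map_add]; rw [Int.cast_add, add_smul]
  · intro v
    simp only [WtV_single, wv_apply, degZ_single, Int.cast_one, one_smul, map_smul, map_sum,
      augM_single, Finset.sum_const]
    rw [← Nat.cast_smul_eq_nsmul ℚ, smul_smul, inv_mul_cancel₀, one_smul]
    exact_mod_cast mov_ne hfin v

theorem indRep_WtV (ρ : Representation ℚ Γ C) (g : Γ) (a : V →₀ ℤ) (y : C) :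
    indRep ρ g (WtV hfin C a y) = WtV hfin C (gU g a) (ρ g y) := by
  classical
  apply int_ind (fun a => indRep ρ g (WtV hfin C a y)) (fun a => WtV hfin C (gU g a) (ρ g y))
  · intro a b; simp only [map_add, LinearMap.add_apply]
  · intro a b; simp only [map_add, LinearMap.add_apply]
  · intro v
    simp only [gU_single, WtV_single, wv_apply, map_smul, map_sum, indRep_single]
    rw [mov_smul, Finset.card_image_of_injective _ (mul_right_injective g),
      Finset.sum_image (fun _ _ _ _ h => mul_right_injective g h)]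

end Weights

section Right

variable {Γ V E : Type} [Group Γ] [MulAction Γ V] [MulAction Γ E] {Q : Edges V E} {o : V}
  {G : Type} [Group G] (M : MagV (Γ := Γ) Q o G)

/-- The action of `G` on `Γ`. -/
def MagV.σB : G →* Equiv.Perm Γ := (MulAction.toPermHom Γ Γ).comp M.γ

theorem MagV.σB_apply (g : G) (v : Γ) : M.σB g v = M.γ g * v := rfl

/-- The representation of `G` on `ℚ[Γ]`. -/
noncomputable abbrev MagV.repB : Representation ℚ G (Γ →₀ ℚ) := permRep M.σB

theorem dd_rB' (q : ℕ) (g : Γ) (z : Bq Γ G (q + 1)) :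
    dd M.repB q (rB Γ G (q + 1) g z) = rB Γ G q g (dd M.repB q z) := by
  apply dd_mp (ρ := M.repB) (τ := M.repB) (MonoidHom.id G) (rightR g)
  intro h m
  have e : (rightR g) ∘ₗ (M.repB h) = (M.repB h) ∘ₗ (rightR g) := by
    apply lhom_ext
    intro v r
    rw [LinearMap.comp_apply, LinearMap.comp_apply, permRep_single, rightR_single, rightR_single,
      permRep_single, M.σB_apply, M.σB_apply, mul_assoc]
  exact DFunLike.congr_fun e m

end Right

section Left

variable {Γ V E : Type} [Group Γ] [MulAction Γ V] [MulAction Γ E] {Q : Edges V E}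

variable (Γ V E) in
/-- The action of `Γ` on the second complex. -/
noncomputable def rU (n q : ℕ) : Representation ℚ Γ (T q (HH E) (MM V n)) where
  toFun g := gCU n q g
  map_one' := by
    apply TI_ext
    intro x a r
    rw [gCU, mp_single, gMU_single]
    have e1 : gAugU n (1 : Γ) a = a := by
      apply Subtype.ext
      change gU (1 : Γ) a.1 = a.1
      apply int_ind (fun b => gU (1 : Γ) b) (fun b => b) (fun a b => by simp only [map_add])
        (fun a b => rfl)
      intro v
      simp only [gU_single, one_smul]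
    have e2 : (gH (1 : Γ) : HH E → HH E) ∘ x = x := by
      funext i
      change Multiplicative.ofAdd (gE (1 : Γ) (x i).toAdd) = x i
      rw [gE_one]; rfl
    rw [e1, e2]
    rfl
  map_mul' g h := by
    apply TI_ext
    intro x a r
    rw [Module.End.mul_apply, gCU, gCU, gCU, mp_single, mp_single, mp_single, gMU_single,
      gMU_single, gMU_single]
    have e1 : gAugU n (g * h) a = gAugU n g (gAugU n h a) := by
      apply Subtype.ext
      change gU (g * h) a.1 = gU g (gU h a.1)
      apply int_ind (fun b => gU (g * h) b) (fun b => gU g (gU h b))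
        (fun a b => by simp only [map_add]) (fun a b => by simp only [map_add])
      intro v
      simp only [gU_single, mul_smul]
    have e2 : (gH (g * h) : HH E → HH E) ∘ x = gH g ∘ gH h ∘ x := by
      funext i
      change Multiplicative.ofAdd (gE (g * h) (x i).toAdd) =
        Multiplicative.ofAdd (gE g (gE h (x i).toAdd))
      rw [gE_mul]
    rw [e1, e2]

theorem avg_rU (hfin : ∀ v : V, (MulAction.stabilizer Γ v : Set Γ).Finite) (n q : ℕ)
    (hn : n ≠ 0) : IsAvg (rU Γ V E n q) := by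
  let W : T q (HH E) (MM V n) →ₗ[ℚ] (Γ →₀ T q (HH E) (MM V n)) := lsum ℚ fun x => lsum ℚ fun a =>
    (n : ℚ)⁻¹ • ((WtV hfin (T q (HH E) (MM V n)) a.1) ∘ₗ (lsingle x) ∘ₗ (lsingle a))
  have hW : ∀ x a r, W (single x (single a r)) =
      (n : ℚ)⁻¹ • WtV hfin (T q (HH E) (MM V n)) a.1 (single x (single a r)) := by
    intro x a r
    simp only [W, Finsupp.lsum_single]
    rfl
  refine ⟨W, fun c => ?_, fun g c => ?_⟩
  · have h : (augM Γ (T q (HH E) (MM V n))) ∘ₗ W = LinearMap.id := by
      apply TI_ext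
      intro x a r
      rw [LinearMap.comp_apply, hW, map_smul, augM_WtV, a.2, smul_smul]
      have hn' : (n : ℚ) ≠ 0 := by exact_mod_cast hn
      have e : (n : ℚ)⁻¹ * ((n : ℤ) : ℚ) = 1 := by
        push_cast
        exact inv_mul_cancel₀ hn'
      rw [e, one_smul]
      rfl
    exact DFunLike.congr_fun h c
  · have h : W ∘ₗ (rU Γ V E n q g) = (indRep (rU Γ V E n q) g) ∘ₗ W := by
      apply TI_ext
      intro x a r
      have e : rU Γ V E n q g (single x (single a r)) =
          single (gH g ∘ x) (single (gAugU n g a) r) := by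
        change gCU n q g _ = _
        rw [gCU, mp_single, gMU_single]
      rw [LinearMap.comp_apply, LinearMap.comp_apply, e, hW, hW, map_smul, indRep_WtV, e]
      rfl
    exact DFunLike.congr_fun h c

end Left

section Map

variable {Γ V E : Type} [Group Γ] [MulAction Γ V] [MulAction Γ E] {Q : Edges V E} {o : V}
  {G : Type} [Group G] (M : MagV (Γ := Γ) Q o G)

/-- The labels of the vertices. -/
noncomputable def MagV.lab (v : Γ) (x : G) : E →₀ ℤ := gE v⁻¹ (M.c x)

/-- The family of maps, on homogeneous chains. -/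
noncomputable def MagV.Fv (n q : ℕ) (v : Γ) : T (q + 1) G ℚ →ₗ[ℚ] T q (HH E) (MM V n) :=
  (Th Q (single (v⁻¹ • o) 1) n q) ∘ₗ (mp (q + 1) (M.lab v) LinearMap.id)

/-- The comparison map, on homogeneous chains. -/
noncomputable def MagV.fh (n q : ℕ) : T (q + 1) G (Γ →₀ ℚ) →ₗ[ℚ] T q (HH E) (MM V n) :=
  comb (q + 1) (M.Fv n q)

/-- The comparison map. -/
noncomputable def MagV.f (n q : ℕ) : Bq Γ G q →ₗ[ℚ] T q (HH E) (MM V n) := (M.fh n q) ∘ₗ (sg q)

theorem MagV.lab_mul (g x : G) (v : Γ) :
    M.lab (M.γ g * v) (g * x) = gE (M.γ g * v)⁻¹ (M.c g) + M.lab v x := by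
  unfold MagV.lab
  rw [M.mul, map_add, ← gE_mul (M.γ g * v)⁻¹ (M.γ g), mul_inv_rev, inv_mul_cancel_right]

theorem MagV.fh_tr (hQ : Eqv (Γ := Γ) Q) (n q : ℕ) (g : G) (z : T (q + 1) G (Γ →₀ ℚ)) :
    M.fh n q (tr M.repB (q + 1) g z) = M.fh n q z := by
  have h : (M.fh n q) ∘ₗ (tr M.repB (q + 1) g) = M.fh n q := by
    apply TI_ext
    intro x v r
    rw [LinearMap.comp_apply, tr, mp_single, permRep_single, M.σB_apply, MagV.fh, comb_single,
      comb_single, MagV.Fv, MagV.Fv, LinearMap.comp_apply, LinearMap.comp_apply, mp_single,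
      mp_single]
    have e1 : (single (M.lab (M.γ g * v) ∘ (fun x => g * x) ∘ x) ((LinearMap.id : ℚ →ₗ[ℚ] ℚ) r) :
        T (q + 1) (E →₀ ℤ) ℚ) = mp (q + 1) (fun y => gE (M.γ g * v)⁻¹ (M.c g) + y) LinearMap.id
          (single (M.lab v ∘ x) ((LinearMap.id : ℚ →ₗ[ℚ] ℚ) r)) := by
      rw [mp_single]
      congr 1
      funext i
      exact M.lab_mul g (x i) v
    rw [e1, Th_translate, del_gE' hQ, M.del]
    congr 2
    rw [map_sub, gU_single, gU_single, smul_smul, mul_inv_rev, inv_mul_cancel_right]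
    abel
  exact DFunLike.congr_fun h z

theorem MagV.fh_bd (n q : ℕ) (z : T (q + 2) G (Γ →₀ ℚ)) :
    dd (repM Q n) q (M.fh n (q + 1) z) = M.fh n q (bd (q + 1) z) := by
  have h : (dd (repM Q n) q) ∘ₗ (M.fh n (q + 1)) = (M.fh n q) ∘ₗ (bd (q + 1)) := by
    apply TI_ext
    intro x v r
    rw [LinearMap.comp_apply, LinearMap.comp_apply, MagV.fh, MagV.fh, comb_bd, comb_single,
      comb_single, MagV.Fv, MagV.Fv, LinearMap.comp_apply, LinearMap.comp_apply,
      LinearMap.comp_apply, dd_Th, bd_mp]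
  exact DFunLike.congr_fun h z

theorem MagV.f_dd (hQ : Eqv (Γ := Γ) Q) (n q : ℕ) (z : Bq Γ G (q + 1)) :
    dd (repM Q n) q (M.f n (q + 1) z) = M.f n q (dd M.repB q z) := by
  unfold MagV.f
  rw [LinearMap.comp_apply, LinearMap.comp_apply, M.fh_bd]
  have h := factor M.repB q (M.fh n q) (fun g w => M.fh_tr hQ n q g w)
    (bd (q + 1) (sg (q + 1) z))
  rw [h, pp_bd, pp_sg]

theorem MagV.f_single (n q : ℕ) (x : Fin q → G) (v : Γ) (r : ℚ) :
    M.f n q (single x (single v r)) = M.Fv n q v (single (Fin.partialProd x) r) := by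
  rw [MagV.f, LinearMap.comp_apply, sg_single, MagV.fh, comb_single]

theorem MagV.f_equiv (hQ : Eqv (Γ := Γ) Q) (n q : ℕ) (g : Γ) (z : Bq Γ G q) :
    M.f n q (rB Γ G q g z) = rU Γ V E n q g (M.f n q z) := by
  have h : (M.f n q) ∘ₗ (rB Γ G q g) = (rU Γ V E n q g) ∘ₗ (M.f n q) := by
    apply TI_ext
    intro x v r
    rw [LinearMap.comp_apply, LinearMap.comp_apply, rB_single, M.f_single, M.f_single, MagV.Fv,
      MagV.Fv, LinearMap.comp_apply, LinearMap.comp_apply, mp_single, mp_single]
    have e1 : (single (M.lab (v * g⁻¹) ∘ Fin.partialProd x) ((LinearMap.id : ℚ →ₗ[ℚ] ℚ) r) :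
        T (q + 1) (E →₀ ℤ) ℚ) = mp (q + 1) (gE g) LinearMap.id
          (single (M.lab v ∘ Fin.partialProd x) ((LinearMap.id : ℚ →ₗ[ℚ] ℚ) r)) := by
      rw [mp_single]
      congr 1
      funext i
      simp only [Function.comp_apply, MagV.lab]
      rw [← gE_mul, mul_inv_rev, inv_inv]
    have e2 : (single ((v * g⁻¹)⁻¹ • o) 1 : V →₀ ℤ) = gU g (single (v⁻¹ • o) 1) := by
      rw [gU_single, mul_inv_rev, inv_inv, mul_smul]
    rw [e1, e2, Th_eqv hQ]
    rfl
  exact DFunLike.congr_fun h z

/-- The pairing with the first complex. -/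
noncomputable def MagV.pairB (q : ℕ) (ω : Frm (E →₀ ℤ) q) : Bq Γ G q →ₗ[ℚ] ℚ :=
  (comb (q + 1) (fun v => hpair (M.lab v) q ω)) ∘ₗ (sg q)

theorem MagV.pairM_f (n q : ℕ) (ω : Frm (E →₀ ℤ) q) (z : Bq Γ G q) :
    pairM n q ω (M.f n q z) = (n.descFactorial q : ℚ) * M.pairB q ω z := by
  have h : (pairM n q ω) ∘ₗ (M.f n q) = (n.descFactorial q : ℚ) • M.pairB q ω := by
    apply TI_ext
    intro x v r
    rw [LinearMap.comp_apply, M.f_single, MagV.Fv, LinearMap.comp_apply,
      pairM_Th Q _ (degZ_single _ _), hpair_mp, LinearMap.smul_apply, MagV.pairB,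
      LinearMap.comp_apply, sg_single, comb_single]
    rfl
  exact DFunLike.congr_fun h z

theorem MagV.pairB_dd (q : ℕ) (ω : Frm (E →₀ ℤ) q) (z : Bq Γ G (q + 1)) :
    M.pairB q ω (dd M.repB q z) = 0 := by
  have hinv : ∀ (g : G) (w : T (q + 1) G (Γ →₀ ℚ)),
      comb (q + 1) (fun v => hpair (M.lab v) q ω) (tr M.repB (q + 1) g w) =
        comb (q + 1) (fun v => hpair (M.lab v) q ω) w := by
    intro g w
    have h : (comb (q + 1) (fun v => hpair (M.lab v) q ω)) ∘ₗ (tr M.repB (q + 1) g) =
        comb (q + 1) (fun v => hpair (M.lab v) q ω) := by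
      apply TI_ext
      intro x v r
      rw [LinearMap.comp_apply, tr, mp_single, permRep_single, M.σB_apply, comb_single,
        comb_single, hpair_single, hpair_single]
      congr 2
      funext i
      simp only [Function.comp_apply]
      rw [M.lab_mul, M.lab_mul]
      abel
    exact DFunLike.congr_fun h w
  have h := factor M.repB q (comb (q + 1) (fun v => hpair (M.lab v) q ω)) hinv
    (bd (q + 1) (sg (q + 1) z))
  rw [pp_bd, pp_sg] at h
  rw [MagV.pairB, LinearMap.comp_apply, ← h, comb_bd]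
  have h0 : comb (q + 2) (fun v => (hpair (M.lab v) q ω) ∘ₗ (bd (X := G) (M := ℚ) (q + 1))) = 0 := by
    apply TI_ext
    intro x v r
    rw [comb_single, LinearMap.comp_apply, hpair_bd]
    rfl
  rw [h0]; rfl

end Map

end Pool.Agent.K3h50.PG
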