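import Pool.Agent.K3h50.PG.ThmH
import Pool.Agent.Y75.MQ.Mag
import Pool.Agent.Y483.PW.Int

/-!
Injectivity for the Magnus groups of the graphs with an action of a group with finite stabilisers of
the vertices.
-/

namespace Pool.Agent.K3h50.PG

open Finsupp Pool.Agent.Y483 Pool.Agent.Y483.PW Pool.Agent.Y110.KW Pool.Agent.Y75.MQ CategoryTheory
open DirectSum Pointwise

section SysE

variable {Γ E : Type} [Group Γ] [MulAction Γ E]

theorem gE_apply (g : Γ) (p : E →₀ ℤ) (e : E) : gE g p e = p (g⁻¹ • e) := by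
  have h : gE g p (g • (g⁻¹ • e)) = p (g⁻¹ • e) :=
    Finsupp.mapDomain_apply (MulAction.injective g) p (g⁻¹ • e)
  rwa [smul_inv_smul] at h

theorem HH.ext' {p q : HH E} (h : ∀ e, p.toAdd e = q.toAdd e) : p = q :=
  Multiplicative.toAdd.injective (Finsupp.ext h)

open Classical in
/-- The restriction to a set of edges, as a function. -/
noncomputable def rs0 (S : Set E) (p : E →₀ ℤ) : E →₀ ℤ := p.filter (fun e => e ∈ S)

theorem rs0_mem {S : Set E} {e : E} (h : e ∈ S) (p : E →₀ ℤ) : rs0 S p e = p e := by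
  classical
  exact Finsupp.filter_apply_pos _ _ h

theorem rs0_notMem {S : Set E} {e : E} (h : e ∉ S) (p : E →₀ ℤ) : rs0 S p e = 0 := by
  classical
  exact Finsupp.filter_apply_neg _ _ h

/-- The restriction to a set of edges. -/
noncomputable def rsE (S : Set E) : HH E →* HH E where
  toFun p := Multiplicative.ofAdd (rs0 S p.toAdd)
  map_one' := HH.ext' fun e => by
    change rs0 S (0 : E →₀ ℤ) e = 0
    by_cases h : e ∈ S
    · rw [rs0_mem h]; rfl
    · exact rs0_notMem h _
  map_mul' p q := HH.ext' fun e => by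
    change rs0 S (p.toAdd + q.toAdd) e = rs0 S p.toAdd e + rs0 S q.toAdd e
    by_cases h : e ∈ S
    · rw [rs0_mem h, rs0_mem h, rs0_mem h]; rfl
    · rw [rs0_notMem h, rs0_notMem h, rs0_notMem h, add_zero]

theorem rsE_mem {S : Set E} {e : E} (h : e ∈ S) (p : HH E) : (rsE S p).toAdd e = p.toAdd e :=
  rs0_mem h _

theorem rsE_notMem {S : Set E} {e : E} (h : e ∉ S) (p : HH E) : (rsE S p).toAdd e = 0 :=
  rs0_notMem h _

variable (Γ E) in
/-- The system of supports. -/
noncomputable def sysE : Sys Γ (HH E) E where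
  φ := phiE Γ E
  e := rsE
  inter S T p := HH.ext' fun a => by
    by_cases hS : a ∈ S
    · rw [rsE_mem hS]
      by_cases hT : a ∈ T
      · rw [rsE_mem hT, rsE_mem (S := S ∩ T) ⟨hS, hT⟩]
      · rw [rsE_notMem hT, rsE_notMem (S := S ∩ T) fun h => hT h.2]
    · rw [rsE_notMem hS, rsE_notMem (S := S ∩ T) fun h => hS h.1]
  equivariant γ S p := HH.ext' fun a => by
    change gE γ (rsE S p).toAdd a = (rsE (γ • S) (phiE Γ E γ p)).toAdd a
    rw [gE_apply]
    have hm : a ∈ γ • S ↔ γ⁻¹ • a ∈ S := Set.mem_smul_set_iff_inv_smul_mem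
    by_cases h : γ⁻¹ • a ∈ S
    · rw [rsE_mem h, rsE_mem (hm.mpr h)]
      exact (gE_apply γ p.toAdd a).symm
    · rw [rsE_notMem h, rsE_notMem fun h' => h (hm.mp h')]
  finite p := by
    refine ⟨p.toAdd.support, HH.ext' fun a => ?_⟩
    by_cases ha : a ∈ p.toAdd.support
    · exact rsE_mem (S := ((p.toAdd.support : Finset E) : Set E)) ha p
    · refine (rsE_notMem (S := ((p.toAdd.support : Finset E) : Set E)) ha p).trans ?_
      exact (Finsupp.notMem_support_iff.mp ha).symm

/-- The inclusion of the part supported on `S`. -/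
noncomputable def incS (S : Finset E) : (sysE Γ E).supG S →* WE Γ E :=
  ((sysE Γ E).supG S).subtype

/-- The projection to the free abelian group. -/
noncomputable def prE (S : Finset E) : (sysE Γ E).supG S →* HH E where
  toFun w := w.1.left
  map_one' := rfl
  map_mul' w w' := by
    change w.1.left * phiE Γ E w.1.right w'.1.left = w.1.left * w'.1.left
    congr 1
    apply HH.ext'
    intro a
    change gE w.1.right w'.1.left.toAdd a = _
    rw [gE_apply]
    by_cases ha : a ∈ S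
    · have h : w.1.right⁻¹ • a = a := inv_smul_eq_iff.mpr (w.2.2 a ha).symm
      rw [h]
    · have h1 : w'.1.left.toAdd a = 0 := by
        have h2 : rsE (S : Set E) w'.1.left = w'.1.left := w'.2.1
        rw [← h2]
        exact rsE_notMem (S := (S : Set E)) ha _
      have h3 : w'.1.left.toAdd (w.1.right⁻¹ • a) = 0 := by
        have h2 : rsE (S : Set E) w'.1.left = w'.1.left := w'.2.1
        rw [← h2]
        apply rsE_notMem (S := (S : Set E))
        intro h4
        apply ha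
        have h5 := w.2.2 _ h4
        rw [smul_inv_smul] at h5
        rw [h5]
        exact h4
      rw [h1, h3]

theorem prE_apply (S : Finset E) (w : (sysE Γ E).supG S) : prE S w = w.1.left := rfl

end SysE

theorem partialProd_hom {G K : Type} [Group G] [Group K] (j : G →* K) {n : ℕ} (g : Fin n → G)
    (i : Fin (n + 1)) : Fin.partialProd (j ∘ g) i = j (Fin.partialProd g i) := by
  induction i using Fin.induction with
  | zero => rw [Fin.partialProd_zero, Fin.partialProd_zero, map_one]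
  | succ i ih => rw [Fin.partialProd_succ, Fin.partialProd_succ, ih, map_mul]; rfl

section Main

variable {B : Type} {d : B → ℕ} {E₀ : GrpCat.{0} ⥤ ModuleCat.{0} ℚ}

variable {Γ V E : Type} [Group Γ] [MulAction Γ V] [MulAction Γ E] {Q : Edges V E}

theorem UhV_supG (S : Finset E) (n : ℕ) (z : T n ((sysE Γ E).supG S) ℚ) :
    UhV (Γ := Γ) Q n (sg n (mp n (incS S) LinearMap.id z)) =
      UhV Q n (sg n (mp n ((SemidirectProduct.inl : HH E →* WE Γ E).comp (prE S))
        LinearMap.id z)) := by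
  have h : (UhV (Γ := Γ) Q n) ∘ₗ (sg n) ∘ₗ
      (mp n (incS S) (LinearMap.id : ℚ →ₗ[ℚ] ℚ)) =
        (UhV Q n) ∘ₗ (sg n) ∘ₗ (mp n ((SemidirectProduct.inl : HH E →* WE Γ E).comp (prE S))
          LinearMap.id) := by
    apply T_ext
    intro x r
    rw [LinearMap.comp_apply, LinearMap.comp_apply, LinearMap.comp_apply, LinearMap.comp_apply,
      mp_single, mp_single, sg_single, sg_single, UhV, LinearMap.comp_apply, LinearMap.comp_apply,
      mp_single, mp_single]
    congr 2
    funext j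
    rw [Function.comp_apply, Function.comp_apply, partialProd_hom, partialProd_hom]
    rfl
  exact DFunLike.congr_fun h z

theorem top_zero (hE : HasPT E₀) (α : ∀ b : B, hq (d b) ⟶ E₀)
    (hZ : ∀ n, LinearMap.ker (tb d α (Zn n)) = ⊥) (hQ : Eqv (Γ := Γ) Q) (b : B)
    (x : HB d (WE Γ E)) (hx : x ∈ LinearMap.ker (tb d α (WE Γ E))) :
    ∀ z : T (d b) (WE Γ E) ℚ, Rpr (Rep.trivial ℚ (WE Γ E) ℚ) (d b) z (x b) →
      UhV Q (d b) (sg (d b) z) ∈ augS (rU Γ V E (d b) (d b)) := by
  have hg : LinearMap.ker (tb d α (WE Γ E)) =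
      ⨆ S : Sys.Cliq (fun u v => ¬ (sysE Γ E).Sep u v),
        (LinearMap.ker (tb d α ((sysE Γ E).supG S.1))).map (hbMap d (incS S.1)) :=
    (sysE Γ E).sys_kernel d hE α (fun u v => ¬ (sysE Γ E).Sep u v) (sysE Γ E).isAdj_sep
  have key : ∀ (z z' : T (d b) (WE Γ E) ℚ) (y : HQ (d b) (WE Γ E)),
      Rpr (Rep.trivial ℚ (WE Γ E) ℚ) (d b) z y → Rpr (Rep.trivial ℚ (WE Γ E) ℚ) (d b) z' y →
        UhV Q (d b) (sg (d b) z') ∈ augS (rU Γ V E (d b) (d b)) →
        UhV Q (d b) (sg (d b) z) ∈ augS (rU Γ V E (d b) (d b)) := by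
    intro z z' y hz hz' h
    have h1 := hz.sub hz'
    rw [sub_self] at h1
    obtain ⟨v, hv⟩ := h1.eq_zero_iff.mp rfl
    have h2 := UhV_range hQ (d b) v
    have h3 : dd (trivR (WE Γ E) ℚ) (d b) v = z - z' := hv
    rw [h3, map_sub, map_sub] at h2
    have h4 := Submodule.add_mem _ h2 h
    rwa [sub_add_cancel] at h4
  rw [hg] at hx
  induction hx using Submodule.iSup_induction' with
  | mem S x hx =>
    intro z hz
    obtain ⟨y, hy, rfl⟩ := hx
    obtain ⟨z₀, hz₀⟩ := exists_rpr (Rep.trivial ℚ ((sysE Γ E).supG S.1) ℚ) (d b) (y b)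
    have h1 : Rpr (Rep.trivial ℚ (WE Γ E) ℚ) (d b)
        (mp (d b) (incS S.1) LinearMap.id z₀)
          (hqMap (incS S.1) (d b) (y b)) := hz₀.hq _
    rw [hbMap_apply] at hz
    refine key z _ _ hz h1 ?_
    rw [UhV_supG]
    have h3 := tb_map d α ((SemidirectProduct.inl : HH E →* WE Γ E).comp (prE (Γ := Γ) S.1)) hy
    have h4 : hbMap d ((SemidirectProduct.inl : HH E →* WE Γ E).comp (prE (Γ := Γ) S.1)) y = 0 := by
      rw [hbMap_comp]
      have h5 : hbMap d (prE (Γ := Γ) S.1) y ∈ LinearMap.ker (tb d α (HH E)) :=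
        tb_map d α (prE (Γ := Γ) S.1) hy
      rw [ker_HH_b d α E hZ] at h5
      rw [(Submodule.mem_bot ℚ).mp h5, map_zero]
    have h6 := hz₀.hq ((SemidirectProduct.inl : HH E →* WE Γ E).comp (prE (Γ := Γ) S.1))
    rw [← hbMap_apply, h4] at h6
    obtain ⟨v, hv⟩ := h6.eq_zero_iff.mp rfl
    have h7 : dd (trivR (WE Γ E) ℚ) (d b) v = mp (d b)
        ((SemidirectProduct.inl : HH E →* WE Γ E).comp (prE (Γ := Γ) S.1)) LinearMap.id z₀ := hv
    rw [← h7]
    exact UhV_range hQ (d b) v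
  | zero =>
    intro z hz
    refine key z 0 _ hz Rpr.zero ?_
    rw [map_zero, map_zero]
    exact Submodule.zero_mem _
  | add x y hx hy ihx ihy =>
    intro z hz
    obtain ⟨z₁, hz₁⟩ := exists_rpr (Rep.trivial ℚ (WE Γ E) ℚ) (d b) (x b)
    obtain ⟨z₂, hz₂⟩ := exists_rpr (Rep.trivial ℚ (WE Γ E) ℚ) (d b) (y b)
    refine key z (z₁ + z₂) (x b + y b) hz (hz₁.add hz₂) ?_
    rw [map_add, map_add]
    exact Submodule.add_mem _ (ihx z₁ hz₁) (ihy z₂ hz₂)

/-- **Injectivity for Magnus groups of graphs with finite stabilisers of the vertices.** -/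
theorem ker_magV (hE : HasPT E₀) (α : ∀ b : B, hq (d b) ⟶ E₀)
    (hZ : ∀ n, LinearMap.ker (tb d α (Zn n)) = ⊥) (hQ : Eqv (Γ := Γ) Q)
    (hfin : ∀ v : V, (MulAction.stabilizer Γ v : Set Γ).Finite) {o : V} {G : Type} [Group G]
    (M : MagV (Γ := Γ) Q o G) : LinearMap.ker (tb d α G) = ⊥ := by
  rw [eq_bot_iff]
  intro x hx
  have h1 : hbMap d M.mu x ∈ LinearMap.ker (tb d α (WE Γ E)) := tb_map d α M.mu hx
  have h0 : hbMap d (1 : G →* Zn 0) x ∈ LinearMap.ker (tb d α (Zn 0)) := tb_map d α _ hx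
  rw [hZ, Submodule.mem_bot] at h0
  rw [Submodule.mem_bot]
  apply DFunLike.ext
  intro b
  change x b = 0
  have hx1 : hqMap (1 : G →* Zn 0) (d b) (x b) = 0 := by
    have h2 := congrArg (fun u : HB d (Zn 0) => u b) h0
    exact (hbMap_apply d (1 : G →* Zn 0) x b).symm.trans h2
  have h2 := top_zero hE α hZ hQ b _ h1
  rw [hbMap_apply] at h2
  generalize x b = xb at *
  generalize d b = j at *
  cases j with
  | zero => exact hq_zero_injective (1 : G →* Zn 0) _ hx1
  | succ j =>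
    obtain ⟨z, hz⟩ := exists_rpr (Rep.trivial ℚ G ℚ) (j + 1) xb
    have h3 := h2 _ (hz.hq M.mu)
    have h4 := M.theoremH hQ hfin j z ((cyc_succ _ _ _).mp hz.cyc) h3
    exact hz.eq_zero_iff.mpr h4

end Main

end Pool.Agent.K3h50.PG
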