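import Pool.Agent.K3h50.PG.Ker
import Pool.Agent.Y363.PW.L

/-!
The Magnus group of a connected graph with an action of a group with finite stabilisers.
-/

namespace Pool.Agent.K3h50.PG

open Finsupp Pool.Agent.Y483 Pool.Agent.Y483.PW Pool.Agent.Y110.KW Pool.Agent.Y75.MQ CategoryTheory
open DirectSum

/-- A connected graph with the set of vertices `V` and the set of edges `E`, with an action of the
group `Γ` with finite stabilisers of the vertices. The edges are oriented, and `Γ` preserves their
orientation. -/
structure PGraph (Γ V E : Type) [Group Γ] [MulAction Γ V] [MulAction Γ E] where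
  /-- The source of an edge. -/
  s : E → V
  /-- The target of an edge. -/
  t : E → V
  s_smul : ∀ (g : Γ) (e : E), s (g • e) = g • s e
  t_smul : ∀ (g : Γ) (e : E), t (g • e) = g • t e
  conn : ∀ S : Set V, S.Nonempty → (∀ e, s e ∈ S ↔ t e ∈ S) → S = Set.univ
  fin : ∀ v : V, (MulAction.stabilizer Γ v : Set Γ).Finite

section

variable {Γ V E : Type} [Group Γ] [MulAction Γ V] [MulAction Γ E] (Y : PGraph Γ V E)

/-- The boundary of the `1`-chains: an edge is mapped to its target minus its source. -/
noncomputable def PGraph.del : (E →₀ ℤ) →ₗ[ℤ] (V →₀ ℤ) :=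
  Finsupp.linearCombination ℤ (fun e => single (Y.t e) 1 - single (Y.s e) 1)

/-- The graph without the action. -/
def PGraph.Q : Edges V E := ⟨Y.s, Y.t⟩

theorem PGraph.Q_del : Y.Q.del = Y.del := rfl

theorem PGraph.eqv : Eqv (Γ := Γ) Y.Q := ⟨Y.s_smul, Y.t_smul⟩

/-- The group of the pairs `(m, γ)`, where `m` is a `1`-chain and `γ ∈ Γ`, with boundary
`∂ m = γ o - o`, with the product `(m, γ) (m', γ') = (m + γ m', γ γ')`. -/
def PGraph.magnus (o : V) : Subgroup (WE Γ E) where
  carrier := {w | Y.del w.left.toAdd = single (w.right • o) 1 - single o 1}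
  mul_mem' {a b} ha hb := by
    have ha' : Y.Q.del a.left.toAdd = single (a.right • o) 1 - single o 1 := ha
    have hb' : Y.Q.del b.left.toAdd = single (b.right • o) 1 - single o 1 := hb
    change Y.Q.del (a.left.toAdd + gE a.right b.left.toAdd) =
      single ((a.right * b.right) • o) 1 - single o 1
    rw [map_add, del_gE' Y.eqv, ha', hb', map_sub, gU_single, gU_single, mul_smul]
    abel
  one_mem' := by
    change Y.Q.del 0 = single ((1 : Γ) • o) 1 - single o 1
    rw [map_zero, one_smul, sub_self]
  inv_mem' {a} ha := by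
    have ha' : Y.Q.del a.left.toAdd = single (a.right • o) 1 - single o 1 := ha
    change Y.Q.del (gE a.right⁻¹ (-a.left.toAdd)) = single (a.right⁻¹ • o) 1 - single o 1
    rw [del_gE' Y.eqv, map_neg, ha', map_neg, map_sub, gU_single, gU_single, inv_smul_smul]
    abel

theorem PGraph.gen (o v : V) : ∃ m, Y.Q.del m = single v 1 - single o 1 := by
  have h : {v | ∃ m, Y.Q.del m = single v 1 - single o 1} = Set.univ := by
    apply Y.conn
    · exact ⟨o, 0, by rw [map_zero, sub_self]⟩
    · intro e
      constructor
      · rintro ⟨m, hm⟩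
        refine ⟨m + single e 1, ?_⟩
        rw [map_add, hm, Y.Q.del_single]
        change _ + (single (Y.t e) 1 - single (Y.s e) 1) = _
        abel
      · rintro ⟨m, hm⟩
        refine ⟨m - single e 1, ?_⟩
        rw [map_sub, hm, Y.Q.del_single]
        change _ - (single (Y.t e) 1 - single (Y.s e) 1) = _
        abel
  exact (Set.ext_iff.mp h v).mpr (Set.mem_univ v)

/-- The structure of the group. -/
noncomputable def PGraph.mag (o : V) : MagV (Γ := Γ) Y.Q o (Y.magnus o) where
  γ := SemidirectProduct.rightHom.comp (Y.magnus o).subtype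
  c w := w.1.left.toAdd
  mul _ _ := rfl
  del w := w.2
  inj w w' h1 h2 := by
    apply Subtype.ext
    apply SemidirectProduct.ext
    · exact Multiplicative.toAdd.injective h2
    · exact h1
  sur m v h := ⟨⟨⟨Multiplicative.ofAdd m, v⟩, h⟩, rfl, rfl⟩
  gen v := Y.gen o v

end

/-- The group `ℤ^n` is a retract of the group of the graph with one vertex and `n` loops. -/
theorem rose_retract (n : ℕ) : ∃ (Γ V E : Type) (_ : Group Γ) (_ : MulAction Γ V)
    (_ : MulAction Γ E) (Y : PGraph Γ V E) (o : V) (i : Zn n →* Y.magnus o)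
    (r : Y.magnus o →* Zn n), ∀ k, r (i k) = k := by
  let A1 : MulAction Unit Unit :=
    { smul := fun _ a => a
      one_smul := fun _ => rfl
      mul_smul := fun _ _ _ => rfl }
  let A2 : MulAction Unit (Fin n) :=
    { smul := fun _ a => a
      one_smul := fun _ => rfl
      mul_smul := fun _ _ _ => rfl }
  let Y : PGraph Unit Unit (Fin n) :=
    { s := fun _ => ()
      t := fun _ => ()
      s_smul := fun _ _ => rfl
      t_smul := fun _ _ => rfl
      conn := fun S hS _ => by
        obtain ⟨v, hv⟩ := hS
        exact Set.eq_univ_of_forall fun w => by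
          rw [Subsingleton.elim w v]
          exact hv
      fin := fun _ => Set.toFinite _ }
  have hdel : ∀ m, Y.del m = 0 := by
    intro m
    have h : Y.del = 0 := by
      apply Finsupp.lhom_ext
      intro e k
      change Finsupp.linearCombination ℤ (fun e => single (Y.t e) 1 - single (Y.s e) 1)
        (single e k) = 0
      rw [Finsupp.linearCombination_single]
      change k • (single () (1 : ℤ) - single () 1) = 0
      rw [sub_self, smul_zero]
    rw [h]
    rfl
  have hmem : ∀ w : WE Unit (Fin n), w ∈ Y.magnus () := by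
    intro w
    change Y.del w.left.toAdd = single (w.right • ()) 1 - single () 1
    rw [hdel, Subsingleton.elim (w.right • ()) ()]
    exact (sub_self _).symm
  have hact : ∀ (g : Unit) (p : Fin n →₀ ℤ), gE g p = p := by
    intro g p
    have : g = 1 := rfl
    rw [this, gE_one]
  refine ⟨Unit, Unit, Fin n, inferInstance, A1, A2, Y, (),
    { toFun := fun k => ⟨⟨Multiplicative.ofAdd (Finsupp.equivFunOnFinite.symm k.toAdd), 1⟩,
        hmem _⟩
      map_one' := ?_
      map_mul' := ?_ },
    { toFun := fun w => Multiplicative.ofAdd (fun i => w.1.left.toAdd i)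
      map_one' := rfl
      map_mul' := ?_ }, ?_⟩
  · apply Subtype.ext
    apply SemidirectProduct.ext
    · apply HH.ext'
      intro e
      rfl
    · rfl
  · intro k k'
    apply Subtype.ext
    apply SemidirectProduct.ext
    · apply HH.ext'
      intro e
      change k.toAdd e + k'.toAdd e = k.toAdd e +
        gE (1 : Unit) (Finsupp.equivFunOnFinite.symm k'.toAdd) e
      rw [hact]
      rfl
    · rfl
  · intro w w'
    apply Multiplicative.toAdd.injective
    funext e
    change w.1.left.toAdd e + gE w.1.right w'.1.left.toAdd e = w.1.left.toAdd e + w'.1.left.toAdd e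
    rw [hact]
  · intro k
    rfl

variable {B : Type} {d : B → ℕ} {E₀ : GrpCat.{0} ⥤ ModuleCat.{0} ℚ}

theorem graph_iff (hE : HasPT E₀) (α : ∀ b : B, hq (d b) ⟶ E₀) :
    (∀ n, kerFam α (zn n) = ⊥) ↔
      ∀ (Γ V E : Type) [Group Γ] [MulAction Γ V] [MulAction Γ E] (Y : PGraph Γ V E) (o : V),
        kerFam α (GrpCat.of (Y.magnus o)) = ⊥ := by
  constructor
  · intro hZ Γ V E _ _ _ Y o
    exact ker_magV hE α hZ Y.eqv Y.fin (Y.mag o)
  · intro h n
    obtain ⟨Γ, V, E, _, _, _, Y, o, i, r, hri⟩ := rose_retract n
    exact ker_retract_b d α i r hri (h Γ V E Y o)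

end Pool.Agent.K3h50.PG
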